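import Pool.Agent.MWN.StmtsA

/-!
# MWN, row NKL: one letter identities in the congruence of a language, state `Lst`
-/

namespace Pool.Agent.MWN.H14

open Pool.Agent.Helper14_MV Pool.Agent.Helper2_MV Pool.Agent.MVO Pool.Agent.MWL Pool.Agent.MWS
  Pool.Agent.MWF

theorem last_asm {k : ℕ} {W : ℕ → List ℕ} (h : W k ≠ []) :
    (asm k W).getLast? = (W k).getLast? := by
  cases k with
  | zero => rfl
  | succ k =>
    show (asm k W ++ (k + 2) :: W (k + 1)).getLast? = _
    rw [List.getLast?_append_of_ne_nil _ (by simp)]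
    rw [show (k + 2) :: W (k + 1) = [k + 2] ++ W (k + 1) from rfl,
      List.getLast?_append_of_ne_nil _ h]

theorem last_asm_one {k : ℕ} {W : ℕ → List ℕ} (h : (asm k W).getLast? = some 1) : W k ≠ [] := by
  intro h0
  cases k with
  | zero =>
    have h1 : asm 0 W = W 0 := rfl
    rw [h1, h0] at h
    simp at h
  | succ k =>
    have h1 : asm (k + 1) W = asm k W ++ (k + 2) :: W (k + 1) := rfl
    rw [h1, h0] at h
    simp at h

theorem last_mw {k : ℕ} {c : ℕ → ℕ} (h : c k ≠ 0) : (mw k c).getLast? = some 0 := by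
  unfold mw
  obtain ⟨m, hm⟩ := Nat.exists_eq_succ_of_ne_zero h
  rw [last_asm (by simp [hm]), hm, List.replicate_succ']
  simp

theorem last_flatMap {l : List ℕ} {f : ℕ → List ℕ} (h : l.getLast? = some 0) (hf : f 0 ≠ []) :
    (l.flatMap f).getLast? = (f 0).getLast? := by
  obtain ⟨l', rfl⟩ : ∃ l', l = l' ++ [0] := by
    rw [List.getLast?_eq_some_iff] at h
    exact h
  rw [List.flatMap_append]
  have h1 : [0].flatMap f = f 0 := by simp
  rw [h1, List.getLast?_append_of_ne_nil _ hf]

theorem flatMap_mw_nil {k : ℕ} {c c' : ℕ → ℕ} {f : ℕ → List ℕ} (hf : f 0 = []) :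
    (mw k c).flatMap f = (mw k c').flatMap f := by
  have h0 : ∀ n, (List.replicate n 0).flatMap f = [] := by
    intro n
    induction n with
    | zero => simp
    | succ n ih => rw [List.replicate_succ, List.flatMap_cons, hf, ih]; rfl
  unfold mw
  induction k with
  | zero =>
    show (List.replicate (c 0) 0).flatMap f = (List.replicate (c' 0) 0).flatMap f
    rw [h0, h0]
  | succ k ih =>
    show (asm k (fun j => List.replicate (c j) 0) ++
        (k + 2) :: List.replicate (c (k + 1)) 0).flatMap f =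
      (asm k (fun j => List.replicate (c' j) 0) ++
        (k + 2) :: List.replicate (c' (k + 1)) 0).flatMap f
    rw [List.flatMap_append, List.flatMap_append, ih, List.flatMap_cons, List.flatMap_cons,
      h0, h0]

theorem step (h3 : NkcStmt) {k k1 : ℕ} {A B : ℕ → Cd} {c c' : ℕ → ℕ} (hc : c k1 ≠ 0)
    (hc' : c' k1 ≠ 0) (hd : 2 ≤ deg k1 c) (hA : KapC k1 k c c' A)
    (hB : KapC k1 k c c' B) (f : ℕ → List ℕ) (p q : List ℕ)
    (hL : LG k A B Lst k (p ++ (mw k1 c).flatMap f ++ q)) :
    LG k A B Lst k (p ++ (mw k1 c').flatMap f ++ q) := by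
  obtain ⟨W, he, hW, hsA, hsB, hS⟩ := hL
  obtain ⟨W', he', hW', hsA', hsB'⟩ := h3 k k1 A B c c' f p q W hd hA hB hW hsA hsB he
  refine ⟨W', he', hW', hsA', hsB', ?_⟩
  have h1 : (W k).getLast? = some 1 := hS
  have hne : W k ≠ [] := by
    intro h
    rw [h] at h1
    simp at h1
  have h2 : (p ++ (mw k1 c).flatMap f ++ q).getLast? = some 1 := by
    rw [he, last_asm hne, h1]
  have h4 : (p ++ (mw k1 c').flatMap f ++ q).getLast? = some 1 := by
    by_cases hq : q = []
    · subst hq
      rw [List.append_nil] at h2 ⊢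
      by_cases hf : f 0 = []
      · rwa [flatMap_mw_nil (c := c') (c' := c) hf]
      · have h5 := last_flatMap (last_mw hc) hf
        have h6 := last_flatMap (last_mw hc') hf
        have h7 : (mw k1 c).flatMap f ≠ [] := by
          intro h
          rw [h] at h5
          rw [List.getLast?_nil] at h5
          exact hf (List.getLast?_eq_none_iff.1 h5.symm)
        have h8 : (mw k1 c').flatMap f ≠ [] := by
          intro h
          rw [h] at h6
          rw [List.getLast?_nil] at h6
          exact hf (List.getLast?_eq_none_iff.1 h6.symm)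
        rw [List.getLast?_append_of_ne_nil _ h7, h5] at h2
        rw [List.getLast?_append_of_ne_nil _ h8, h6, h2]
    · rw [List.getLast?_append_of_ne_nil _ hq] at h2 ⊢
      exact h2
  rw [he'] at h4
  show (W' k).getLast? = some 1
  rw [← last_asm (last_asm_one h4), h4]

theorem good_symm {C : Cd} {p q : ℕ} (h : C.good p q = true) : C.good q p = true := by
  cases C <;> simp only [Cd.good, Bool.or_eq_true, Bool.and_eq_true, beq_iff_eq] at h ⊢
  · exact h.symm
  · rcases h with h | h
    · exact Or.inl h.symm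
    · exact Or.inr ⟨h.2, h.1⟩
  · exact h.symm
  · rcases h with h | h
    · exact Or.inl h.symm
    · exact Or.inr ⟨h.2, h.1⟩

theorem kap_symm {k1 k : ℕ} {c c' : ℕ → ℕ} {A : ℕ → Cd} (h : KapC k1 k c c' A) :
    KapC k1 k c' c A := by
  intro f hf
  rcases h f hf with h1 | h1
  · exact Or.inl ⟨h1.2, h1.1⟩
  · exact Or.inr (fun j hj => good_symm (h1 j hj))

theorem nkl (h3 : NkcStmt) : NklStmt := by
  intro k k1 A B c c' hc hc' hd hd' hA hB
  apply RR_gaml
  intro f p q
  constructor
  · exact step h3 hc hc' hd hA hB f p q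
  · exact step h3 hc' hc hd' (kap_symm hA) (kap_symm hB) f p q

end Pool.Agent.MWN.H14
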